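import Pool.Agent.T2H32.AF.Fin
import Pool.Agent.T2H32.AF.Cor
import Pool.Agent.T2H32.AF.KH
import Pool.Agent.T2H32.AF.AV
import Pool.Agent.T2H32.AF.JS
import Pool.Agent.T2H32.AF.MO
import Pool.Agent.T2H32.AF.LO
import Pool.Agent.T2H32.AF.UPt

set_option autoImplicit false

/-!
# The least discriminants allowed by Riemann-Roch in almost all quadratic fields

Let `c₁`, `c₂` be the Chern classes of a vector bundle of rank two on `ℙ^n`, `D = c₁² - 4 c₂ = f s²`. The Riemann-Roch (Schwarzenberger)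
conditions `RiemannRoch n (poly2 c₁ c₂)` restrict the pair `c₁`, `c₂`. How large must `|D|` be if the class `f` modulo squares is given?

**Theorem.** (1) Let `n ≥ 3`, `X ≥ n ^ 4`, `t > 0`, `k = ⌊log X / (4 log n)⌋`. For all but `4 X (2 / t²) ^ k` of the integers `f`, `0 < |f| ≤ X`: if `D = f s²`, `s ≠ 0`, for a pair which
satisfies the Riemann-Roch conditions on `ℙ^n`, then `|D| ≥ |f| exp (θ(n) - (t + 24) √(n log X))`; and some such pair has `|D| ≤ |f| exp (θ(n) + (t + 24) √(n log X))`. Here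
`θ(n) = ∑_{p ≤ n} log p`.
(2) For all `δ, ε > 0`, `n ≥ n₀(δ, ε)` and `n ^ 4 ≤ X ≤ exp (n ^ (1 - δ))`, for all but `X ^ (1 - δ / 32)` of the integers `f`, `0 < |f| ≤ X`, the least `|D|` of such a pair is between
`exp ((1 - ε) n)` and `exp ((1 + ε) n)`.

Proof. The odd primes `p < n`, `p ∤ f`, for which `f` is not a square modulo `p`, divide `s`, and an `s` which is divisible by the largest powers `≤ n` of these primes and
of the primes dividing `2 f` is possible. So all depends on the sum `∑_{p ≤ n} (f / p) log p`. Its moments of order `2 k` over the `f ≤ X` are those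
of a sum of independent random signs (Khintchine's inequality), as long as `n ^ (4 k) ≤ X`. (2) follows with `t = n ^ (δ / 4)` from the prime number theorem.
-/

namespace Pool.Agent.Results.MP_b01859_ag.AlmostAllFields

open Pool.Agent.R920.CH

/-- **The least discriminants in almost all quadratic fields.** -/
theorem result :
    (∀ n X : ℕ, 3 ≤ n → n ^ 4 ≤ X → ∀ t : ℝ, 0 < t →
      ∃ E : Finset ℤ, (E.card : ℝ) ≤ 4 * X * (2 / t ^ 2) ^ ⌊Real.log X / (4 * Real.log n)⌋₊ ∧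
      ∀ f : ℤ, f ≠ 0 → |f| ≤ X → f ∉ E →
      (∀ c₁ c₂ s : ℤ, RiemannRoch n (poly2 c₁ c₂) → c₁ ^ 2 - 4 * c₂ = f * s ^ 2 → s ≠ 0 →
        |(f : ℝ)| * Real.exp (Chebyshev.theta n - (t + 24) * √(n * Real.log X)) ≤ ((|c₁ ^ 2 - 4 * c₂| : ℤ) : ℝ)) ∧
      (∃ c₂ s : ℤ, RiemannRoch n (poly2 0 c₂) ∧ 0 ^ 2 - 4 * c₂ = f * s ^ 2 ∧ s ≠ 0 ∧
        ((|0 ^ 2 - 4 * c₂| : ℤ) : ℝ) ≤ |(f : ℝ)| * Real.exp (Chebyshev.theta n + (t + 24) * √(n * Real.log X)))) ∧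
    (∀ δ ε : ℝ, 0 < δ → 0 < ε → ∃ n₀ : ℕ, ∀ n X : ℕ, n₀ ≤ n → n ^ 4 ≤ X → Real.log X ≤ (n : ℝ) ^ (1 - δ) →
      ∃ E : Finset ℤ, (E.card : ℝ) ≤ (X : ℝ) ^ (1 - δ / 32) ∧ ∀ f : ℤ, f ≠ 0 → |f| ≤ X → f ∉ E →
      (∀ c₁ c₂ s : ℤ, RiemannRoch n (poly2 c₁ c₂) → c₁ ^ 2 - 4 * c₂ = f * s ^ 2 → s ≠ 0 →
        Real.exp ((1 - ε) * n) ≤ ((|c₁ ^ 2 - 4 * c₂| : ℤ) : ℝ)) ∧
      (∃ c₂ s : ℤ, RiemannRoch n (poly2 0 c₂) ∧ 0 ^ 2 - 4 * c₂ = f * s ^ 2 ∧ s ≠ 0 ∧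
        ((|0 ^ 2 - 4 * c₂| : ℤ) : ℝ) ≤ Real.exp ((1 + ε) * n))) := by
  open Pool.Agent.T2H32.AF in
  have hCT := CTt_main (MO_main KH_main AV_main JS_main)
  have hM : Pool.Agent.T2H32.AF.Main := fun n X hn hX t ht =>
    Pool.Agent.T2H32.AF.fin hCT Pool.Agent.T2H32.AF.LOt_main Pool.Agent.T2H32.AF.UPt_main n X hn hX t ht
  exact ⟨hM, fun δ ε hδ hε => Pool.Agent.T2H32.AF.cor hM δ ε hδ hε⟩

end Pool.Agent.Results.MP_b01859_ag.AlmostAllFields
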