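import Pool.Agent.T2H43.RR.Final

set_option autoImplicit false

/-!
# Bundles of rank two whose Chern roots lie in a given quadratic field

Let `E` be a complex vector bundle of rank two on `ℙ^n` with the Chern classes `c₁`, `c₂`, whose
discriminant `D = c₁² - 4 c₂` is not zero, and let `D = f s²`, where `f` is not a square: the Chern
roots `(c₁ ± s √f) / 2` of `E` generate the quadratic field `ℚ(√f)`. The theorem of Riemann-Roch gives
the Riemann-Roch conditions for the polynomial `T² - c₁ T + c₂`. We show, for all `B` and `ε > 0`, for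
all `n ≥ n₀(B, ε)` and all integers `f` which are not squares, `|f| ≤ (log n) ^ B`:

* (1) `|D| ≥ exp ((1 - ε) n)` for all pairs `c₁`, `c₂` satisfying the Riemann-Roch conditions on `ℙ^n`
  with `D = c₁² - 4 c₂ = f s²`, `s ≠ 0`;
* (2) there are such pairs, even with `c₁ = 0`, with `|D| ≤ exp ((1 + ε) n)`.

So the smallest discriminant which the Riemann-Roch conditions allow in a given quadratic field is
`exp ((1 + o(1)) n)`. For example (`f = -1`) a bundle of rank two on `ℙ^n` with `c₁ = 0` and
`c₂ = m²`, `m > 0`, has `c₂ > exp ((1 - ε) n)`; and a bundle with `|D| ≤ exp ((1 - ε) n)` is either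
numerically a direct sum of two line bundles, or the squarefree part of `D` is larger than any given
power of `log n`. The theorem `BurgessDiscriminant` of the starting files treats the discriminants
`|D| ≤ n ^ A`.

The proof. (1) By the Riemann-Roch conditions `D` is a square modulo all odd primes `p < n` (this is
in the work of helper920), so all primes `p < n`, `p ∤ 2 f`, modulo which `f` is not a square divide
`s`. By the theorem of Siegel and Walfisz half of the primes have this property. (2) Let `s` be the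
product of the powers `p ^ e ≤ n < p ^ (e + 1)`, where `p ≤ n` divides `2 f` or `f` is not a square
modulo `p`, and let `x = s √f`. For all `k ≤ n` the number `binom(x, k) + binom(-x, k)` is an integer:
at the primes dividing `s` all factors of `x (x - 1) ... (x - k + 1)` have at least the valuations of
`k, 1, ..., k - 1`; at the other primes `√f` is a `p`-adic integer.
-/

namespace Pool.Agent.Results.MP_b01859_ag.ChernRootsQuadraticField

open Pool.Agent.R920.CH

/-- **The least discriminants of the bundles of rank two with Chern roots in `ℚ(√f)`.** -/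
theorem result (B : ℕ) (ε : ℝ) (hε : 0 < ε) : ∃ n₀ : ℕ, ∀ n : ℕ, n₀ ≤ n → ∀ f : ℤ,
    ¬ IsSquare f → |(f : ℝ)| ≤ Real.log n ^ B →
    (∀ c₁ c₂ s : ℤ, RiemannRoch n (poly2 c₁ c₂) → c₁ ^ 2 - 4 * c₂ = f * s ^ 2 → s ≠ 0 →
      Real.exp ((1 - ε) * n) ≤ ((|c₁ ^ 2 - 4 * c₂| : ℤ) : ℝ)) ∧
    (∃ c₂ s : ℤ, RiemannRoch n (poly2 0 c₂) ∧ 0 ^ 2 - 4 * c₂ = f * s ^ 2 ∧ s ≠ 0 ∧
      ((|0 ^ 2 - 4 * c₂| : ℤ) : ℝ) ≤ Real.exp ((1 + ε) * n)) := by
  obtain ⟨n₁, h₁⟩ := Pool.Agent.T2H43.RR.lower B (min ε 1) (lt_min hε one_pos) (min_le_right _ _)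
  obtain ⟨n₂, h₂⟩ := Pool.Agent.T2H43.RR.upper B ε hε
  refine ⟨max n₁ n₂, fun n hn f hf hfn => ⟨?_, ?_⟩⟩
  · intro c₁ c₂ s hRR hfs hs
    refine le_trans ?_ (h₁ n ((le_max_left _ _).trans hn) f hf hfn c₁ c₂ s hRR hfs hs)
    apply Real.exp_le_exp.2
    apply mul_le_mul_of_nonneg_right _ (Nat.cast_nonneg n)
    have := min_le_left ε 1
    linarith
  · obtain ⟨c₂, s, h1, h2, h3, h4⟩ := h₂ n ((le_max_right _ _).trans hn) f hf hfn
    have e : (0 : ℤ) ^ 2 - 4 * c₂ = -4 * c₂ := by ring
    refine ⟨c₂, s, h1, ?_, h3, ?_⟩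
    · rw [e]
      exact h2
    · rw [e]
      exact h4

end Pool.Agent.Results.MP_b01859_ag.ChernRootsQuadraticField
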