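import Pool.Agent.T2H43.RQ.Cond

set_option autoImplicit false

/-!
# The exact Riemann-Roch conditions for bundles of rank two on projective spaces

The Chern classes `c₁`, `c₂` of a vector bundle of rank two on `ℙ^n` satisfy the Riemann-Roch
(Schwarzenberger) conditions: for every integer-valued polynomial `g` of degree at most `n` the number
`g(x) + g(y)` is an integer, where `x`, `y` are the Chern roots, the zeros of `T² - c₁ T + c₂`
(`RiemannRoch n (poly2 c₁ c₂)`). Split bundles (`x`, `y` integers) satisfy them for all `n`, and for
large `n` they are very restrictive. We determine all solutions, for every `n`.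

Every discriminant `D = c₁² - 4 c₂` is of the form `D = d m²`, where `d` is `1` or a fundamental
discriminant, i.e. the discriminant of a quadratic field `K` (`IsFund d`). Let
`M(d, n) = ∏ p ^ e(p)` be the product over the primes `p ≤ n` (`conductor d n`), where the exponent is
(`expo d n p`)

* `e(p) = 0`, if `p` splits in `K` (`p ∤ d` and `d` is a square modulo `4 p`),
* `e(p)` = the number of digits to the base `p` of `⌊n / (p + 1)⌋`, if `p` is inert in `K`
  (`d` is not a square modulo `4 p`); it is the least `e` with `n < (p + 1) p ^ e`,
* `e(p)` = the number of digits to the base `p` of `⌊n / (2 p)⌋`, if `p` is ramified in `K` (`p ∣ d`);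
  it is the least `e` with `n < 2 p ^ (e + 1)`.

**Theorem.** The pair `c₁`, `c₂` satisfies the Riemann-Roch conditions on `ℙ^n` if and only if
`M(d, n)` divides `m`.

Since the Chern roots are `(c₁ ± m √d) / 2`, the theorem says that the Riemann-Roch conditions on
`ℙ^n` hold if and only if the Chern roots lie in the order `ℤ + M(d, n) O` of conductor `M(d, n)` in
the ring `O` of integers of `K`. For `d = 1` (`D` is a square) all primes split and there is no
condition. Example: the bundle of Horrocks and Mumford on `ℙ⁴` has `c₁ = -1`, `c₂ = 4` after a twist,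
so `D = d = -15`, `m = 1`. As `2` splits, `3` and `5` are ramified and `7` is inert, `M(-15, n) = 1` for
`n ≤ 5` and `3 ∣ M(-15, n)` for `n ≥ 6`: its Chern classes satisfy the conditions exactly for
`n ≤ 5`.

The proof. By Pólya's theorem the conditions say that the traces of `x (x - 1) ... (x - k + 1)`,
`k ≤ n`, are divisible by `k!`; this is a local condition at each prime `p`. Let `p ^ a` be the power
of `p` in `m`; after a translation `x = p ^ a z`. *Sufficiency.* If `p` splits, then `x` is a `p`-adic
integer. If not, the first `p ^ (a + 1)` factors of the product have at least the valuations of the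
factors of `k!`; in degree `k = p ^ (a + 1)` the trace gains the missing factor `p`, and in the degrees
between `p ^ (a + 1)` and the bound the factor `x (x - p ^ (a + 1))` is divisible by
`p ^ (2 a)` (inert case, where `v(k) < a`) or by `p ^ (2 a + 1)` times a `p`-integral element (ramified
case, `v(k) ≤ a`). *Necessity.* The Riemann-Roch conditions imply that
`2 ^ (2 h - 1) (2 h)!` divides `∏_{j < h} (D - (2 j + ε) ^ 2)` for `2 h ≤ n`, `ε ≡ c₁ mod 2`
(this is in the work of helper920); the `p`-adic valuation of the product is computed exactly for
`2 h = p ^ a (p + 1)` (inert) and `2 h = 2 p ^ (a + 1)` (ramified) by induction on `a`: it is smaller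
by one than that of the left hand side.
-/

namespace Pool.Agent.Results.MP_b01859_ag.ExactRiemannRoch

open Pool.Agent.R920.CH Pool.Agent.T2H43.RQ

/-- **All pairs `(c₁, c₂)` which satisfy the Riemann-Roch conditions of rank two on `ℙ^n`.** -/
theorem result (n : ℕ) (c₁ c₂ : ℤ) :
    (∃ d m : ℤ, IsFund d ∧ c₁ ^ 2 - 4 * c₂ = d * m ^ 2) ∧
    ∀ d m : ℤ, IsFund d → c₁ ^ 2 - 4 * c₂ = d * m ^ 2 →
      (RiemannRoch n (poly2 c₁ c₂) ↔ (conductor d n : ℤ) ∣ m) :=
  ⟨exists_decomp c₁ c₂, fun d m hd h => RR_conductor n d m c₁ c₂ hd h⟩

end Pool.Agent.Results.MP_b01859_ag.ExactRiemannRoch
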