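import Pool.Agent.T2H32.RRT.Fin
import Pool.Agent.T2H32.RRT.PV
import Pool.Agent.T2H32.RRT.INE
import Pool.Agent.T2H32.RRT.FA
import Pool.Agent.T2H32.RRT.FB
import Pool.Agent.T2H32.RRT.GOO
import Pool.Agent.T2H32.RRT.SMA
import Pool.Agent.T2H32.RRT.CNT
import Pool.Agent.T2H32.RRT.PRS
import Pool.Agent.T2H32.RRT.CLS
import Pool.Agent.T2H32.RRT.LOC
import Pool.Agent.T2H32.RRT.SQR
import Pool.Agent.T2H32.RRT.PIG
import Pool.Agent.T2H32.RRT.LOW

set_option autoImplicit false

/-!
# The transition for the Chern classes of bundles of rank two on large projective spaces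

Let `E` be a complex vector bundle of rank two on `ℙ^n` with the Chern classes `c₁`, `c₂`. The theorem of Riemann-Roch gives
the Riemann-Roch (Schwarzenberger) conditions for the polynomial `T² - c₁ T + c₂`. They hold for the split pairs `c₁ = a + b`,
`c₂ = a b`, the Chern classes of `O(a) ⊕ O(b)`. For `H ≥ 1` let

* `SplitPairs H` be the set of the split pairs with `|c₁| ≤ H`, `|c₂| ≤ H²`,
* `OtherPairs n H` the set of the other pairs with `|c₁| ≤ H`, `|c₂| ≤ H²` which satisfy the Riemann-Roch conditions for `ℙ^n`,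
* `OtherDiscs n X` the set of the nonsquare discriminants `D = c₁² - 4 c₂`, `|D| ≤ X`, of pairs satisfying these conditions.

(`|c₂| ≤ H²` is the natural scale: the roots of the polynomial are `O(H)`.) We show:

1. `SplitPairs H` has between `H² / 4` and `25 H²` elements.
2. **Below the transition.** For all `ε > 0` and `n ≥ n₀(ε)`: if `H ≤ exp (n ^ (1/3 - ε))`, then `OtherPairs n H` has at most
   `H² / n ^ (2 √e - ε)` elements, where `2 √e = 3.29…`; if `X ≤ exp (n ^ (1/3 - ε))`, then `OtherDiscs n X` has at most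
   `√X / n ^ (2 √e - ε)` elements (there are about `√X` squares). So up to the height `exp (n ^ (1/3 - ε))` all but a proportion of
   `4 n ^ (-2 √e + ε)` of the pairs allowed by Riemann-Roch are split.
3. **Few quadratic fields.** Let `0 < θ < 1`, `κ > θ / (1 - θ)`, `ε > 0`. For `n ≥ n₀` and `1 ≤ X ≤ exp (n ^ θ)` the discriminants
   allowed by Riemann-Roch with `0 < |D| ≤ X` lie in at most `n ^ ε X ^ κ` classes modulo squares. (For `θ < 1/2` one can take
   `κ < 1`.)
4. **Above the transition.** For `0 < δ ≤ 1`, `n ≥ n₀(δ)` and all `H ≥ 2 ^ ((1 + δ) π(n))` the set `OtherPairs n H` has at least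
   `H ^ (3 - δ) / 2 ^ π(n)` and at least `H ^ (2 + δ/4)` elements. So now almost all of the pairs allowed by Riemann-Roch are
   not split. (`π(n)` is the number of the primes up to `n`. The conditions at the primes `2 < p < n`, `D` is a square modulo `p`,
   allow about `H³ / 2 ^ π(n)` pairs, if they are independent, so `2 ^ π(n)` is the conjectural place of the transition, and
   the exponents in 4. are the best possible up to `δ`.)

The starting result `FewExceptionalClasses` has 2. for polynomial heights `H ≤ n ^ A`.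

The proof of 2. and 3. The discriminant `D = f s²`, `f` squarefree, is a square modulo all odd primes `p < n`, so that the
symbol `(f / p)` is `1` for all odd `p < n` which do not divide `D`, and `D` has at most `2 log |D|` prime factors. For a set `F` of such `f`,
`|f| ≤ Y`, the sum of `(∑_{f ∈ F} (f / m))²` over all `m ≤ n ^ B` is at least the sum over the products `m` of `B` primes `p < n`, about
`|F|² n ^ B / B ^ B`; and it is at most `|F| n ^ B + |F|² O(Y log Y)` by the inequality of Pólya and Vinogradov for the symbols `(f g / m)`,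
`f ≠ g`. If `Y = exp (n ^ θ)`, the best choice of `B` gives `|F| ≤ Y ^ (θ / (1 - θ) + o(1))`, and `|F| ≤ n ^ ε` if `Y` is a power of `n`. This is
3., and if `θ < 1/3` then the sum of `√(X / |f|)` over the `f > n ^ A` is small. If `|f| ≤ n ^ (4 √e - ε)`, then by the theorem of Burgess
and the method of Vinogradov (the starting library) the product `P` of the odd primes `p < n` with `(f / p) = - 1` is larger than
`n ^ 12`; as `P` divides `s`, such `f` do not contribute much.

The proof of 4. Two primes `q, q' > n`, `q q' ≤ H²`, in the same class modulo 8 and with the same symbols at all primes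
`p ≤ n` have a product `D = q q'` which is a square modulo all powers of all primes up to `n`; by the pigeonhole principle
there are many such pairs. For every odd `c₁` the polynomial `T² - c₁ T + (c₁² - D) / 4` has a root modulo `n!`, and this implies the
Riemann-Roch conditions.
-/

namespace Pool.Agent.Results.MP_b01859_ag.Transition

open Filter Pool.Agent.R920.CH Pool.Agent.T2H32.RRT

/-- **The transition for the Riemann-Roch conditions of rank two.** -/
theorem result :
    (∀ H : ℝ, 1 ≤ H →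
      H ^ 2 / 4 ≤ ((SplitPairs H).ncard : ℝ) ∧ ((SplitPairs H).ncard : ℝ) ≤ 25 * H ^ 2) ∧
    (∀ ε : ℝ, 0 < ε → ∃ n₀ : ℕ, ∀ n ≥ n₀,
      (∀ H : ℝ, 1 ≤ H → H ≤ Real.exp ((n : ℝ) ^ (1 / 3 - ε)) →
        ((OtherPairs n H).ncard : ℝ) ≤ H ^ 2 / (n : ℝ) ^ (2 * Real.exp (1 / 2) - ε)) ∧
      (∀ X : ℝ, 0 ≤ X → X ≤ Real.exp ((n : ℝ) ^ (1 / 3 - ε)) →
        ((OtherDiscs n X).ncard : ℝ) ≤ √X / (n : ℝ) ^ (2 * Real.exp (1 / 2) - ε))) ∧
    (∀ θ κ ε : ℝ, 0 < θ → θ < 1 → θ / (1 - θ) < κ → 0 < ε → ∃ n₀ : ℕ, ∀ n ≥ n₀,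
      ∀ X : ℝ, 1 ≤ X → X ≤ Real.exp ((n : ℝ) ^ θ) → ∀ F : Finset ℤ,
        (∀ D ∈ F, D ≠ 0 ∧ |(D : ℝ)| ≤ X ∧
          ∃ c₁ c₂ : ℤ, RiemannRoch n (poly2 c₁ c₂) ∧ c₁ ^ 2 - 4 * c₂ = D) →
        (∀ D ∈ F, ∀ E ∈ F, D ≠ E → ¬ IsSquare (D * E)) →
        (F.card : ℝ) ≤ (n : ℝ) ^ ε * X ^ κ) ∧
    (∀ δ : ℝ, 0 < δ → δ ≤ 1 → ∃ n₀ : ℕ, ∀ n ≥ n₀, ∀ H : ℝ,
      (2 : ℝ) ^ ((1 + δ) * (Nat.primeCounting n : ℝ)) ≤ H →
        H ^ (3 - δ) / (2 : ℝ) ^ (Nat.primeCounting n : ℝ) ≤ ((OtherPairs n H).ncard : ℝ) ∧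
        H ^ (2 + δ / 4) ≤ ((OtherPairs n H).ncard : ℝ)) := by
  have hPV := PV_main
  have hI := INE_main
  have hA := FA_main hPV hI
  have hB := FB_main hPV hI
  have hG := GOO_main
  have hC := CNT_main hA hB hG SMA_main
  have hP := PRS_main hC
  have hL := LOW_main LOC_main SQR_main PIG_main
  refine ⟨split_bounds, fun ε hε => ?_, fun θ κ ε h1 h2 h3 h4 => ?_, fun δ hδ hδ1 => ?_⟩
  · obtain ⟨n₀, h⟩ := Filter.eventually_atTop.mp ((hP ε hε).and (hC ε hε))
    exact ⟨n₀, fun n hn => ⟨fun H hH hHe => other_le ((h n hn).1 H hH hHe),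
      fun X hX hXe => discs_le ((h n hn).2 X hX hXe)⟩⟩
  · obtain ⟨n₀, h⟩ := Filter.eventually_atTop.mp (CLS_main hA hB hG θ κ ε h1 h2 h3 h4)
    exact ⟨n₀, h⟩
  · obtain ⟨n₀, h⟩ := Filter.eventually_atTop.mp ((hL δ hδ).and (hL (δ / 4) (by positivity)))
    refine ⟨n₀, fun n hn H hH => ⟨le_other ((h n hn).1 H hH), ?_⟩⟩
    have hpi : (0 : ℝ) ≤ (Nat.primeCounting n : ℝ) := Nat.cast_nonneg _
    have hH1 : 1 ≤ H := le_trans (Real.one_le_rpow (by norm_num) (by positivity)) hH
    have hH0 : 0 < H := by linarith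
    have hH' : (2 : ℝ) ^ ((1 + δ / 4) * (Nat.primeCounting n : ℝ)) ≤ H := by
      refine le_trans (Real.rpow_le_rpow_of_exponent_le (by norm_num) ?_) hH
      nlinarith
    refine le_trans ?_ (le_other ((h n hn).2 H hH'))
    rw [le_div_iff₀ (by positivity)]
    have h2 : (2 : ℝ) ^ (Nat.primeCounting n : ℝ) ≤ H ^ (1 - δ / 2) := by
      have e1 : (2 : ℝ) ^ (Nat.primeCounting n : ℝ) ≤
          ((2 : ℝ) ^ ((1 + δ) * (Nat.primeCounting n : ℝ))) ^ (1 - δ / 2) := by
        rw [← Real.rpow_mul (by norm_num)]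
        apply Real.rpow_le_rpow_of_exponent_le (by norm_num)
        have : 1 ≤ (1 + δ) * (1 - δ / 2) := by nlinarith
        nlinarith
      exact e1.trans (Real.rpow_le_rpow (by positivity) hH (by linarith))
    calc H ^ (2 + δ / 4) * (2 : ℝ) ^ (Nat.primeCounting n : ℝ)
        ≤ H ^ (2 + δ / 4) * H ^ (1 - δ / 2) := mul_le_mul_of_nonneg_left h2 (by positivity)
      _ = H ^ (3 - δ / 4) := by rw [← Real.rpow_add hH0]; congr 1; ring

end Pool.Agent.Results.MP_b01859_ag.Transition
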